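import Pool.Agent.H27.HankI

/-! All roots of the weighted digit sum Hankel determinants lie in the disc of radius four. -/

namespace Pool.Agent.Results.MP_9fc12a_nt.Full
open Polynomial Pool.Agent.H27.HankR

set_option maxHeartbeats 400000

/-- The polynomial whose coefficients are the binary digits of `n`. -/
noncomputable def S (n : ℕ) : ℤ[X] := Nat.ofDigits X (Nat.digits 2 n)

/-- The Hankel determinant of the polynomials `S`. -/
noncomputable def H (n : ℕ) : ℤ[X] := (Matrix.of fun i j : Fin n => S (i.1 + j.1)).det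

theorem HD (w : ℂ) (n : ℕ) : aeval w (H n) = Equiv.Perm.sign (Fin.revPerm : Equiv.Perm (Fin n)) * h w 0 n := by
  have e : ∀ l : List ℕ, aeval w (Nat.ofDigits (X : ℤ[X]) l) = Nat.ofDigits w l := fun l => by
    induction l with
    | nil => simp [Nat.ofDigits]
    | cons a l ih => simp [Nat.ofDigits, ih]
  rw [H, AlgHom.map_det]
  refine Eq.trans (congrArg Matrix.det ?_) (Matrix.det_permute' Fin.revPerm _)
  ext i j
  have := j.2
  simp only [M, Matrix.submatrix_apply, Matrix.of_apply, id, Fin.revPerm_apply, Fin.val_rev, sd, add_zero,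
    AlgHom.mapMatrix_apply, Matrix.map_apply, S, e]
  congr 2
  omega

section
variable {w : ℂ} (hw : 4 ≤ ‖w‖)
include hw

theorem w0 : w ≠ 0 := fun z => by norm_num [z] at hw

theorem u2 {u : ℂ} (hu : ‖w‖ ≤ ‖u‖) : ‖w‖ - 2 ≤ ‖u - 2‖ := by
  have := norm_sub_norm_le u 2
  simp at this
  linarith

theorem xy (n : ℕ) : y w n ≠ 0 ∧ ∃ a u : ℂ, a ≠ 0 ∧ ‖w‖ ≤ ‖u‖ ∧ ∀ c, x w c (n + 1) = a * (u - 2 + c) := by
  have w0 := w0 hw
  induction n using Nat.strong_induction_on with
  | _ n ih =>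
    have x0 : ∀ k < n, x w 0 (k + 1) ≠ 0 := fun k hk => by
      obtain ⟨-, a, u, h1, h2, h3⟩ := ih k hk
      rw [h3, add_zero]
      exact mul_ne_zero h1 (norm_pos_iff.mp (by linarith [u2 hw h2]))
    obtain ⟨b, rfl | rfl⟩ : ∃ b, n = b + b ∨ n = b + 1 + b := ⟨n / 2, by omega⟩
    · have hb : y w b ≠ 0 := by
        rcases b with _ | b
        · simp [y]
        · exact (ih _ (by omega)).1
      refine ⟨?_, (w ^ b * y w b) ^ 2, w, by positivity, le_rfl, fun c => ?_⟩
      · rcases b with _ | b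
        · exact hb
        · have := x0 b (by omega)
          rw [hy0]
          exact mul_ne_zero (mul_ne_zero (by simp) (by positivity)) (by positivity)
      · rw [show b + b + 1 = b + 1 + b by ring, hx1, mul_comm]
    · obtain ⟨h0, a, u, h1, h2, h3⟩ := ih b (by omega)
      have := x0 b (by omega)
      have h4 : u - 2 ≠ 0 := norm_pos_iff.mp (by linarith [u2 hw h2])
      refine ⟨by rw [hy1]; positivity, (w ^ (b + 1)) ^ 2 * a ^ 2 * (u - 2) * 2 / w, w * u / 2, div_ne_zero (mul_ne_zero (mul_ne_zero (by positivity) h4) two_ne_zero) w0,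
        ?_, fun c => ?_⟩
      · rw [norm_div, norm_mul, Complex.norm_two]
        nlinarith
      · rw [show b + 1 + b + 1 = b + 1 + (b + 1) by ring, hx0 w0, h3, h3]
        field_simp
        ring

theorem hg (n : ℕ) (hn : 2 ≤ n) : ∃ a g : ℂ, a ≠ 0 ∧ 1 / (‖w‖ + 2) ≤ ‖g‖ ∧ ∀ c, h w c n = a * (g + c) := by
  have w0 := w0 hw
  have key : ∀ {k b : ℕ}, (∃ a g : ℂ, a ≠ 0 ∧ 1 / (‖w‖ + 2) ≤ ‖g‖ ∧ ∀ c, h w c k = a * (g + c)) → ∃ a g : ℂ, a ≠ 0 ∧
      1 / (‖w‖ + 2) ≤ ‖g‖ ∧ ∀ c, h w (c / w) k * x w (-1) (b + 1) + h w ((c - 1) / w) k * x w 0 (b + 1) -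
        h w ((c - 1) / w) k * x w (-1) (b + 1) = a * (g + c) := by
    rintro k b ⟨a, g, h1, h2, h3⟩
    obtain ⟨-, a', u, h4, h5, h6⟩ := xy hw b
    have h7 := u2 hw h5
    have h8 : u - 2 ≠ 0 := norm_pos_iff.mp (by linarith)
    refine ⟨a * a' * (u - 2) / w, w * g - 1 / (u - 2), by positivity, ?_, fun c => ?_⟩
    · refine le_trans ?_ (norm_sub_norm_le _ _)
      rw [norm_mul, norm_div, norm_one]
      have h9 := one_div_le_one_div_of_le (by linarith) h7
      have h10 : 1 / (‖w‖ - 2) ≤ (‖w‖ - 1) * (1 / (‖w‖ + 2)) := by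
        rw [mul_one_div, div_le_div_iff₀ (by linarith) (by linarith)]
        nlinarith
      nlinarith
    · rw [h3, h3, h6, h6]
      field_simp
      ring
  induction n using Nat.strong_induction_on with
  | _ n ih =>
    obtain ⟨b, rfl | ⟨rfl, hb⟩ | rfl⟩ : ∃ b, n = 2 ∨ n = b + 1 + (b + 1) ∧ 0 < b ∨ n = b + 1 + 1 + (b + 1) := ⟨n / 2 - 1, by omega⟩
    · have h1 : 2 - w ≠ 0 := fun z => by norm_num [← sub_eq_zero.mp z] at hw
      refine ⟨2 - w, 1 / (2 - w), h1, ?_, fun c => ?_⟩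
      · rw [norm_div, norm_one]
        refine one_div_le_one_div_of_le (norm_pos_iff.mpr h1) ((norm_sub_le _ _).trans ?_)
        simp [add_comm]
      · have e0 : sd w 0 = 0 := by simp [sd, Nat.ofDigits]
        have e1 : sd w 1 = 1 := by rw [s1 w (t := 0) (z := 1) le_rfl rfl, e0]; simp
        have e2 : sd w 2 = w := by rw [s0 w (t := 1) (z := 2) zero_le_one rfl, e1]; simp
        rw [h, Matrix.det_fin_two]
        norm_num [M, e0, e1, e2]
        field_simp
        ring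
    · obtain ⟨a, g, h1, h2, h3⟩ := key (b := b) (ih (b + 1) (by omega) (by omega))
      exact ⟨(-1) ^ (b + 1) * (w ^ (b + 1) * a), g, mul_ne_zero (by simp) (by positivity), h2, fun c => by rw [hh0 w0, h3]; ring⟩
    · obtain ⟨a, g, h1, h2, h3⟩ := key (b := b) (ih (b + 1 + 1) (by omega) (by omega))
      exact ⟨w ^ (b + 1 + 1) * a, g, by positivity, h2, fun c => by rw [hh1 w0, h3, mul_assoc]⟩

end

theorem result (n : ℕ) (hn : 2 ≤ n) (t : ℂ) (ht : aeval t (H n) = 0) : ‖t‖ < 4 := by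
  by_contra hw
  obtain ⟨a, g, h1, h2, h3⟩ := hg (not_lt.mp hw) n hn
  rw [HD, h3, add_zero] at ht
  exact mul_ne_zero (by simp) (mul_ne_zero h1 (norm_pos_iff.mp (lt_of_lt_of_le (by positivity) h2))) ht

end Pool.Agent.Results.MP_9fc12a_nt.Full
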